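import Pool.Agent.H56.Hp7

namespace Pool.Agent.Results.MP_3498ef_gt.NotEllipse

open Pool.Agent.H56.Hp

theorem result : ∃ Ω : Set ℂ, IsOpen Ω ∧ Bornology.IsBounded Ω ∧ Convex ℝ Ω ∧
    StrictConvex ℝ (closure Ω) ∧ (∀ A : ℂ →ᵃ[ℝ] ℂ, Ω ≠ A '' Metric.ball 0 1) ∧
    (0 : ℂ) ∈ Ω ∧ (3 / 5 : ℂ) ∈ Ω ∧
    {X ∈ Ω | hd Ω 0 X = sInf (hd Ω X '' (Ω ∩ {Y | Y.re = 3 / 5}))} =
      Ω ∩ {X | X.re ^ 2 + X.im ^ 2 - (1 - 5 / 3 * X.re) ^ 2 = 0} := main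

end Pool.Agent.Results.MP_3498ef_gt.NotEllipse
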